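import Pool.Agent.Q65.ML.PI

/-!
Project ML (helper112), jobs PA (two windows with a common part) and SM (second moments).
-/

set_option autoImplicit false

namespace Pool.Agent.Q65.ML

open Finset Filter MeasureTheory ProbabilityTheory Pool.Agent.Q120.GM Pool.Agent.Q112.LE
open Pool.Agent.Q112.ML

theorem ind_meas_gen {Ω : Type*} [MeasurableSpace Ω] {A : Ω → Set ℕ} {n : ℕ}
    (h : MeasurableSet {ω | n ∈ A ω}) : Measurable fun ω => ind (A ω) n := by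
  have e : (fun ω => ind (A ω) n) = ({ω | n ∈ A ω} : Set Ω).indicator fun _ => (1 : ℝ) := by
    funext ω
    unfold ind
    by_cases hn : n ∈ A ω
    · rw [Set.indicator_of_mem hn, Set.indicator_of_mem (show ω ∈ {ω | n ∈ A ω} from hn)]
    · rw [Set.indicator_of_notMem hn, Set.indicator_of_notMem (show ω ∉ {ω | n ∈ A ω} from hn)]
  rw [e]
  exact measurable_const.indicator h

theorem sm_meas_gen {Ω : Type*} [MeasurableSpace Ω] {A : Ω → Set ℕ} {W : Finset ℕ} (w : ℕ → ℝ)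
    (h : ∀ n ∈ W, MeasurableSet {ω | n ∈ A ω}) : Measurable fun ω => sm (A ω) w W := by
  unfold sm
  exact Finset.measurable_fun_sum _ fun n hn => (ind_meas_gen (h n hn)).const_mul _

theorem sm_F {Ω : Type*} {A : Ω → Set ℕ} {W : Finset ℕ} (w : ℕ → ℝ) {S : Set ℕ} (h : ∀ n ∈ W, n ∈ S) :
    Measurable[F A S] fun ω => sm (A ω) w W :=
  @sm_meas_gen Ω (F A S) A W w fun n hn => F_mem (h n hn)

section
variable {Ω : Type*} [MeasurableSpace Ω] {μ : Measure Ω} [IsProbabilityMeasure μ] {p : ℕ → ℝ}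
  {A : Ω → Set ℕ}

theorem sm_meas (hA : IsModel μ p A) (W : Finset ℕ) (w : ℕ → ℝ) : Measurable fun ω => sm (A ω) w W :=
  sm_meas_gen w fun n _ => hA.meas n

theorem ge_F (W : Finset ℕ) (w : ℕ → ℝ) (t : ℝ) {S : Set ℕ} (h : ∀ n ∈ W, n ∈ S) :
    MeasurableSet[F A S] {ω | t ≤ sm (A ω) w W} := by
  have h1 : Measurable[F A S] fun ω => sm (A ω) w W := sm_F w h
  exact h1 measurableSet_Ici

theorem ge_meas (hA : IsModel μ p A) (W : Finset ℕ) (w : ℕ → ℝ) (t : ℝ) :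
    MeasurableSet {ω | t ≤ sm (A ω) w W} := measurableSet_le measurable_const (sm_meas hA W w)

end

theorem sm_split (S : Set ℕ) (w : ℕ → ℝ) (W C : Finset ℕ) (h : C ⊆ W) :
    sm S w W = sm S w (W \ C) + sm S w C := by
  unfold sm
  exact (sum_sdiff h).symm

theorem pa : S_PA := by
  intro Ω _ μ _ p A hA W1 W2 w T1 T2 c Δ τ hΔ hτ hτ1 hC
  obtain ⟨C, hCe⟩ : ∃ C, C = W1 ∩ W2 := ⟨_, rfl⟩
  rw [← hCe] at hC
  have hC1 : C ⊆ W1 := by rw [hCe]; exact inter_subset_left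
  have hC2 : C ⊆ W2 := by rw [hCe]; exact inter_subset_right
  obtain ⟨G1, hG1⟩ : ∃ G1 : Set Ω, G1 = {ω | T1 - c - Δ ≤ sm (A ω) w (W1 \ C)} := ⟨_, rfl⟩
  obtain ⟨G2, hG2⟩ : ∃ G2 : Set Ω, G2 = {ω | T2 - c - Δ ≤ sm (A ω) w (W2 \ C)} := ⟨_, rfl⟩
  obtain ⟨EC, hEC⟩ : ∃ EC : Set Ω, EC = {ω | |sm (A ω) w C - c| ≤ Δ} := ⟨_, rfl⟩
  have hECF : MeasurableSet[F A (C : Set ℕ)] EC := by
    have h1 : Measurable[F A (C : Set ℕ)] fun ω => sm (A ω) w C := sm_F w fun n hn => hn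
    have h2 : EC = (fun ω => sm (A ω) w C) ⁻¹' (Metric.closedBall c Δ) := by
      rw [hEC]
      ext ω
      rw [Set.mem_preimage, Metric.mem_closedBall, Real.dist_eq]
      rfl
    rw [h2]
    exact h1 measurableSet_closedBall
  have hECm : MeasurableSet EC := F_le hA _ _ hECF
  have hG1F : MeasurableSet[F A ((W1 \ C : Finset ℕ) : Set ℕ)] G1 := by
    rw [hG1]
    exact ge_F _ w _ fun n hn => hn
  have hG2F : MeasurableSet[F A ((W2 \ C : Finset ℕ) : Set ℕ)] G2 := by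
    rw [hG2]
    exact ge_F _ w _ fun n hn => hn
  have d1 : Disjoint ((W1 \ C : Finset ℕ) : Set ℕ) (C : Set ℕ) := by
    rw [Finset.disjoint_coe]
    exact sdiff_disjoint
  have d2 : Disjoint ((W2 \ C : Finset ℕ) : Set ℕ) (C : Set ℕ) := by
    rw [Finset.disjoint_coe]
    exact sdiff_disjoint
  have d3 : Disjoint ((W1 \ C : Finset ℕ) : Set ℕ) ((W2 \ C : Finset ℕ) : Set ℕ) := by
    rw [Finset.disjoint_coe, Finset.disjoint_left]
    intro n h1 h2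
    rw [Finset.mem_sdiff] at h1 h2
    exact h1.2 (by rw [hCe, Finset.mem_inter]; exact ⟨h1.1, h2.1⟩)
  have hPE : 1 - τ ≤ μ.real EC := by
    have h1 : EC = {ω | Δ < |sm (A ω) w C - c|}ᶜ := by
      rw [hEC]
      ext ω
      simp
    have h2 : MeasurableSet {ω | Δ < |sm (A ω) w C - c|} := by
      have h3 := hECm.compl
      rw [h1, compl_compl] at h3
      exact h3
    rw [h1, probReal_compl_eq_one_sub h2]
    linarith
  have hB : ∀ (W : Finset ℕ) (T : ℝ) (G : Set Ω), C ⊆ W → G = {ω | T - c - Δ ≤ sm (A ω) w (W \ C)} →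
      μ.real (G ∩ EC) = μ.real G * μ.real EC →
      μ.real G * (1 - τ) ≤ μ.real {ω | T - 2 * Δ ≤ sm (A ω) w W} := by
    intro W T G hCW hG hind
    have h1 : G ∩ EC ⊆ {ω | T - 2 * Δ ≤ sm (A ω) w W} := by
      rintro ω ⟨h2, h3⟩
      rw [hG] at h2
      rw [hEC] at h3
      have h4 := (abs_le.1 (show |sm (A ω) w C - c| ≤ Δ from h3)).1
      have h5 : T - c - Δ ≤ sm (A ω) w (W \ C) := h2
      show T - 2 * Δ ≤ sm (A ω) w W
      rw [sm_split (A ω) w W C hCW]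
      linarith
    have h2 := measureReal_mono h1 (measure_ne_top μ _)
    rw [hind] at h2
    exact (mul_le_mul_of_nonneg_left hPE measureReal_nonneg).trans h2
  have b1 := hB W1 T1 G1 hC1 hG1 (indep_real hA d1 hG1F hECF)
  have b2 := hB W2 T2 G2 hC2 hG2 (indep_real hA d2 hG2F hECF)
  have hsub : {ω | T1 ≤ sm (A ω) w W1 ∧ T2 ≤ sm (A ω) w W2} ⊆
      {ω | Δ < |sm (A ω) w C - c|} ∪ (G1 ∩ G2) := by
    rintro ω ⟨h1, h2⟩
    by_cases h3 : Δ < |sm (A ω) w C - c|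
    · exact Or.inl h3
    · right
      push Not at h3
      have h4 := (abs_le.1 h3).2
      have e1 := sm_split (A ω) w W1 C hC1
      have e2 := sm_split (A ω) w W2 C hC2
      constructor
      · rw [hG1]
        show T1 - c - Δ ≤ sm (A ω) w (W1 \ C)
        linarith
      · rw [hG2]
        show T2 - c - Δ ≤ sm (A ω) w (W2 \ C)
        linarith
  have h1 := (measureReal_mono hsub (measure_ne_top μ _)).trans (measureReal_union_le _ _)
  rw [indep_real hA d3 hG1F hG2F] at h1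
  have hτ2 : 0 < 1 - τ := by linarith
  have c1 : μ.real G1 ≤ μ.real {ω | T1 - 2 * Δ ≤ sm (A ω) w W1} / (1 - τ) := by
    rw [le_div_iff₀ hτ2]
    exact b1
  have c2 : μ.real G2 ≤ μ.real {ω | T2 - 2 * Δ ≤ sm (A ω) w W2} / (1 - τ) := by
    rw [le_div_iff₀ hτ2]
    exact b2
  have c3 : μ.real G1 * μ.real G2 ≤ μ.real {ω | T1 - 2 * Δ ≤ sm (A ω) w W1} *
      μ.real {ω | T2 - 2 * Δ ≤ sm (A ω) w W2} / (1 - τ) ^ 2 := by
    refine (mul_le_mul c1 c2 measureReal_nonneg (by positivity)).trans (le_of_eq ?_)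
    rw [div_mul_div_comm, sq]
  linarith

theorem sm_ : S_PA → S_PI → S_SE → S_SM := by
  intro hPA hPI hSE Ω _ μ _ p A hA ι _ I W w T H Dep Δ τ π0 N hI hΔ hτ hτ1 hπ hπ1 hN hNH hP hdis hdep
  have hex : ∀ i, ∃ T' : ℝ, i ∈ I → T i ≤ T' ∧ T' ≤ T i + H i ∧
      μ.real {ω | T' - 2 * Δ ≤ sm (A ω) w (W i)} ≤
        π0 ^ (-(1 / (N : ℝ))) * μ.real {ω | T' ≤ sm (A ω) w (W i)} ∧
      π0 ≤ μ.real {ω | T' ≤ sm (A ω) w (W i)} := by
    intro i
    by_cases hi : i ∈ I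
    · obtain ⟨T', h1, h2, h3, h4⟩ := hPI (fun t => μ.real {ω | t ≤ sm (A ω) w (W i)})
        (fun s t hst => measureReal_mono (fun ω hω => le_trans hst hω) (measure_ne_top μ _))
        (fun t => measureReal_le_one) (T i) (H i) Δ π0 N hΔ hπ hN (hNH i hi) (hP i hi)
      exact ⟨T', fun _ => ⟨h1, h2, h3, h4⟩⟩
    · exact ⟨0, fun h => absurd h hi⟩
  choose T' hT' using hex
  have hτ2 : 0 < 1 - τ := by linarith
  have hR1 : (1 : ℝ) ≤ π0 ^ (-(2 / (N : ℝ))) / (1 - τ) ^ 2 + τ / π0 ^ 2 := by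
    have h1 : (1 : ℝ) ≤ π0 ^ (-(2 / (N : ℝ))) :=
      Real.one_le_rpow_of_pos_of_le_one_of_nonpos hπ hπ1 (by
        rw [neg_nonpos]
        positivity)
    have h2 : (1 - τ) ^ 2 ≤ 1 := pow_le_one₀ hτ2.le (by linarith)
    have h3 : 1 ≤ π0 ^ (-(2 / (N : ℝ))) / (1 - τ) ^ 2 := by
      rw [le_div_iff₀ (by positivity)]
      linarith
    have h4 : 0 ≤ τ / π0 ^ 2 := by positivity
    linarith
  have hsq : (π0 ^ (-(1 / (N : ℝ)))) ^ 2 = π0 ^ (-(2 / (N : ℝ))) := by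
    rw [← Real.rpow_natCast, ← Real.rpow_mul hπ.le]
    congr 1
    push_cast
    ring
  have h1 := hSE Ω μ ι I (fun i => {ω | T' i ≤ sm (A ω) w (W i)}) Dep π0
    (π0 ^ (-(2 / (N : ℝ))) / (1 - τ) ^ 2 + τ / π0 ^ 2) hI (fun i _ => ge_meas hA _ _ _) hπ hR1
    (fun i hi => (hT' i hi).2.2.2) ?_ ?_
  · refine le_trans (measureReal_mono ?_ (measure_ne_top μ _)) h1
    intro ω hω i hi h2
    have h3 : sm (A ω) w (W i) < T i := hω i hi
    have h4 : T' i ≤ sm (A ω) w (W i) := h2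
    linarith [(hT' i hi).1]
  · intro i hi j hj hij hd
    refine le_of_eq (indep_real hA (S := (W i : Set ℕ)) (T := (W j : Set ℕ)) ?_
      (ge_F _ w _ fun n hn => hn) (ge_F _ w _ fun n hn => hn))
    rw [Finset.disjoint_coe]
    exact hdis i hi j hj hij hd
  · intro i hi j hj hij hd
    obtain ⟨c, hc⟩ := hdep i hi j hj hij hd
    have h2 := hPA Ω μ p A hA (W i) (W j) w (T' i) (T' j) c Δ τ hΔ hτ (by linarith) hc
    have e1 : {ω | T' i ≤ sm (A ω) w (W i)} ∩ {ω | T' j ≤ sm (A ω) w (W j)} =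
        {ω | T' i ≤ sm (A ω) w (W i) ∧ T' j ≤ sm (A ω) w (W j)} := rfl
    rw [e1]
    refine h2.trans ?_
    obtain ⟨x, hx⟩ : ∃ x, x = μ.real {ω | T' i ≤ sm (A ω) w (W i)} := ⟨_, rfl⟩
    obtain ⟨y, hy⟩ : ∃ y, y = μ.real {ω | T' j ≤ sm (A ω) w (W j)} := ⟨_, rfl⟩
    obtain ⟨ρ, hρ⟩ : ∃ ρ, ρ = π0 ^ (-(1 / (N : ℝ))) := ⟨_, rfl⟩
    have g1 := (hT' i hi).2.2.1
    have g2 := (hT' j hj).2.2.1
    have g3 := (hT' i hi).2.2.2
    have g4 := (hT' j hj).2.2.2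
    rw [← hx, ← hρ] at g1
    rw [← hy, ← hρ] at g2
    rw [← hx] at g3
    rw [← hy] at g4
    rw [← hx, ← hy, ← hsq, ← hρ]
    have hρ0 : 0 ≤ ρ := by rw [hρ]; exact Real.rpow_nonneg hπ.le _
    have k1 : μ.real {ω | T' i - 2 * Δ ≤ sm (A ω) w (W i)} *
        μ.real {ω | T' j - 2 * Δ ≤ sm (A ω) w (W j)} / (1 - τ) ^ 2 ≤ ρ * x * (ρ * y) / (1 - τ) ^ 2 := by
      refine div_le_div_of_nonneg_right ?_ (by positivity)
      exact mul_le_mul g1 g2 measureReal_nonneg (mul_nonneg hρ0 (hπ.le.trans g3))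
    have k2 : τ ≤ τ / π0 ^ 2 * (x * y) := by
      have h5 : π0 ^ 2 ≤ x * y := by
        rw [sq]
        exact mul_le_mul g3 g4 hπ.le (hπ.le.trans g3)
      calc τ = τ / π0 ^ 2 * π0 ^ 2 := by field_simp
        _ ≤ τ / π0 ^ 2 * (x * y) := mul_le_mul_of_nonneg_left h5 (by positivity)
    have k3 : ρ * x * (ρ * y) / (1 - τ) ^ 2 = ρ ^ 2 / (1 - τ) ^ 2 * (x * y) := by ring
    rw [k3] at k1
    linarith

end Pool.Agent.Q65.ML
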