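import Pool.Agent.Q112.ML.Stm

/-!
Project ML (helper112), jobs PI (pigeonhole) and SE (second moment method with weights).
-/

set_option autoImplicit false

namespace Pool.Agent.Q65.ML

open Finset Filter MeasureTheory ProbabilityTheory Pool.Agent.Q120.GM Pool.Agent.Q112.LE
open Pool.Agent.Q112.ML

theorem pi_ : S_PI := by
  intro F hF hF1 T0 H Δ π N hΔ hπ hN hNH hFH
  obtain ⟨ρ, hρ⟩ : ∃ ρ : ℝ, ρ = π ^ (-(1 / (N : ℝ))) := ⟨_, rfl⟩
  have hN0 : (N : ℝ) ≠ 0 := by
    have : (1 : ℝ) ≤ N := by exact_mod_cast hN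
    linarith
  have hρ0 : 0 < ρ := by rw [hρ]; exact Real.rpow_pos_of_pos hπ _
  have hρN : ρ ^ N * π = 1 := by
    rw [hρ, ← Real.rpow_natCast, ← Real.rpow_mul hπ.le]
    have e : -(1 / (N : ℝ)) * N = -1 := by field_simp
    rw [e, Real.rpow_neg_one]
    exact inv_mul_cancel₀ hπ.ne'
  have hT : ∀ k : ℕ, k ≤ N → T0 + 2 * Δ * k ≤ T0 + H := by
    intro k hk
    have h1 : (k : ℝ) ≤ N := by exact_mod_cast hk
    have h2 : 2 * Δ * k ≤ 2 * Δ * N := mul_le_mul_of_nonneg_left h1 (by positivity)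
    linarith
  have hFk : ∀ k : ℕ, k ≤ N → π ≤ F (T0 + 2 * Δ * k) := fun k hk => hFH.trans (hF (hT k hk))
  by_contra hcon
  push Not at hcon
  have hstep : ∀ k : ℕ, k + 1 ≤ N → ρ * F (T0 + 2 * Δ * ((k + 1 : ℕ) : ℝ)) < F (T0 + 2 * Δ * k) := by
    intro k hk
    by_contra h
    push Not at h
    have h1 := hcon (T0 + 2 * Δ * ((k + 1 : ℕ) : ℝ)) (by
      have : (0 : ℝ) ≤ 2 * Δ * ((k + 1 : ℕ) : ℝ) := by positivity
      linarith) (hT _ hk) (by
      have e : T0 + 2 * Δ * ((k + 1 : ℕ) : ℝ) - 2 * Δ = T0 + 2 * Δ * k := by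
        push_cast
        ring
      rw [e, ← hρ]
      exact h)
    exact absurd (hFk _ hk) (not_le.2 h1)
  have hind : ∀ k : ℕ, k ≤ N → ρ ^ k * F (T0 + 2 * Δ * k) ≤ F T0 := by
    intro k
    induction k with
    | zero => intro _; simp
    | succ k ih =>
      intro hk
      refine le_trans ?_ (ih (by omega))
      rw [pow_succ, mul_assoc]
      exact mul_le_mul_of_nonneg_left (hstep k hk).le (by positivity)
  obtain ⟨M, hM⟩ : ∃ M, N = M + 1 := ⟨N - 1, by omega⟩
  have h1 := hstep M (by omega)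
  have h2 := hind M (by omega)
  have h3 : ρ ^ M * (ρ * F (T0 + 2 * Δ * ((M + 1 : ℕ) : ℝ))) < ρ ^ M * F (T0 + 2 * Δ * M) :=
    mul_lt_mul_of_pos_left h1 (by positivity)
  have h4 : ρ ^ M * (ρ * F (T0 + 2 * Δ * ((M + 1 : ℕ) : ℝ))) = ρ ^ N * F (T0 + 2 * Δ * (N : ℝ)) := by
    rw [hM, pow_succ]
    ring
  have h5 : ρ ^ N * π ≤ ρ ^ N * F (T0 + 2 * Δ * (N : ℝ)) :=
    mul_le_mul_of_nonneg_left (hFk N le_rfl) (by positivity)
  have h6 := hF1 T0
  linarith

theorem se : S_SE := by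
  classical
  intro Ω _ μ _ ι _ I E Dep π0 R hI hE hπ hR hp hind hdep
  obtain ⟨c, hc⟩ : ∃ c : ι → ℝ, c = fun i => 1 / μ.real (E i) := ⟨_, rfl⟩
  have hP : ∀ i ∈ I, 0 < μ.real (E i) := fun i hi => hπ.trans_le (hp i hi)
  have hcP : ∀ i ∈ I, c i * μ.real (E i) = 1 := by
    intro i hi
    rw [hc]
    exact one_div_mul_cancel (hP i hi).ne'
  have hc0 : ∀ i ∈ I, 0 < c i := by
    intro i hi
    rw [hc]
    exact one_div_pos.2 (hP i hi)
  have hcle : ∀ i ∈ I, c i ≤ 1 / π0 := by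
    intro i hi
    rw [hc]
    exact one_div_le_one_div_of_le hπ (hp i hi)
  obtain ⟨m, hm⟩ : ∃ m : ℝ, m = (I.card : ℝ) := ⟨_, rfl⟩
  have hm0 : 0 < m := by rw [hm]; exact_mod_cast hI.card_pos
  obtain ⟨Z, hZ⟩ : ∃ Z : Ω → ℝ, Z = fun ω => ∑ i ∈ I, c i * (E i).indicator (fun _ => (1 : ℝ)) ω :=
    ⟨_, rfl⟩
  have hint1 : ∀ i ∈ I, Integrable (fun ω => c i * (E i).indicator (fun _ => (1 : ℝ)) ω) μ := fun i hi =>
    ((integrable_const (1 : ℝ)).indicator (hE i hi)).const_mul _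
  have hEZ : ∫ ω, Z ω ∂μ = m := by
    rw [hZ, integral_finsetSum _ hint1]
    have e : ∀ i ∈ I, ∫ ω, c i * (E i).indicator (fun _ => (1 : ℝ)) ω ∂μ = 1 := by
      intro i hi
      rw [integral_const_mul, integral_indicator_const _ (hE i hi), smul_eq_mul, mul_one, hcP i hi]
    rw [sum_congr rfl e, sum_const, nsmul_eq_mul, mul_one, hm]
  have hZ2 : ∀ ω, Z ω ^ 2 = ∑ i ∈ I, ∑ j ∈ I, c i * c j * (E i ∩ E j).indicator (fun _ => (1 : ℝ)) ω := by
    intro ω
    rw [hZ, sq, Finset.sum_mul_sum]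
    refine sum_congr rfl fun i _ => sum_congr rfl fun j _ => ?_
    have e : (E i ∩ E j).indicator (fun _ => (1 : ℝ)) ω =
        (E i).indicator (fun _ => (1 : ℝ)) ω * (E j).indicator (fun _ => (1 : ℝ)) ω := by
      by_cases h1 : ω ∈ E i
      · by_cases h2 : ω ∈ E j
        · rw [Set.indicator_of_mem h1, Set.indicator_of_mem h2,
            Set.indicator_of_mem (show ω ∈ E i ∩ E j from ⟨h1, h2⟩), mul_one]
        · rw [Set.indicator_of_notMem h2, Set.indicator_of_notMem (fun h => h2 h.2), mul_zero]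
      · rw [Set.indicator_of_notMem h1, Set.indicator_of_notMem (fun h => h1 h.1), zero_mul]
    rw [e]
    ring
  have hint2 : ∀ i ∈ I, ∀ j ∈ I,
      Integrable (fun ω => c i * c j * (E i ∩ E j).indicator (fun _ => (1 : ℝ)) ω) μ := fun i hi j hj =>
    ((integrable_const (1 : ℝ)).indicator ((hE i hi).inter (hE j hj))).const_mul _
  have hZ2' : (fun ω => Z ω ^ 2) = fun ω => ∑ i ∈ I, ∑ j ∈ I,
      c i * c j * (E i ∩ E j).indicator (fun _ => (1 : ℝ)) ω := funext hZ2
  have hEZ2 : ∫ ω, Z ω ^ 2 ∂μ = ∑ i ∈ I, ∑ j ∈ I, c i * c j * μ.real (E i ∩ E j) := by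
    rw [hZ2', integral_finsetSum _ fun i hi => integrable_finsetSum _ (hint2 i hi)]
    refine sum_congr rfl fun i hi => ?_
    rw [integral_finsetSum _ (hint2 i hi)]
    refine sum_congr rfl fun j hj => ?_
    rw [integral_const_mul, integral_indicator_const _ ((hE i hi).inter (hE j hj)), smul_eq_mul,
      mul_one]
  have hb : ∑ i ∈ I, ∑ j ∈ I, c i * c j * μ.real (E i ∩ E j) ≤ m ^ 2 + m / π0 + Dep.card * (R - 1) := by
    have h1 : ∀ i ∈ I, ∀ j ∈ I, c i * c j * μ.real (E i ∩ E j) ≤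
        1 + (if i = j then 1 / π0 else 0) + (if (i, j) ∈ Dep then R - 1 else 0) := by
      intro i hi j hj
      by_cases hij : i = j
      · subst hij
        rw [if_pos rfl, Set.inter_self, mul_assoc, hcP i hi, mul_one]
        have h2 := hcle i hi
        have h3 : 0 ≤ (if (i, i) ∈ Dep then R - 1 else 0) := by
          split_ifs
          · linarith
          · exact le_refl _
        linarith
      · rw [if_neg hij]
        have h2 : 0 ≤ c i * c j := mul_nonneg (hc0 i hi).le (hc0 j hj).le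
        have h3 : c i * c j * (μ.real (E i) * μ.real (E j)) = 1 := by
          have := hcP i hi
          have := hcP j hj
          calc c i * c j * (μ.real (E i) * μ.real (E j)) =
              (c i * μ.real (E i)) * (c j * μ.real (E j)) := by ring
            _ = 1 := by rw [hcP i hi, hcP j hj, mul_one]
        by_cases hd : (i, j) ∈ Dep
        · rw [if_pos hd]
          have h4 := mul_le_mul_of_nonneg_left (hdep i hi j hj hij hd) h2
          have h5 : c i * c j * (R * (μ.real (E i) * μ.real (E j))) = R := by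
            calc c i * c j * (R * (μ.real (E i) * μ.real (E j))) =
                R * (c i * c j * (μ.real (E i) * μ.real (E j))) := by ring
              _ = R := by rw [h3, mul_one]
          linarith
        · rw [if_neg hd]
          have h4 := mul_le_mul_of_nonneg_left (hind i hi j hj hij hd) h2
          linarith
    refine (sum_le_sum fun i hi => sum_le_sum (h1 i hi)).trans ?_
    simp only [sum_add_distrib, sum_const, nsmul_eq_mul, mul_one]
    have h2 : ∑ i ∈ I, ∑ j ∈ I, (if i = j then 1 / π0 else 0) = m / π0 := by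
      have e : ∀ i ∈ I, ∑ j ∈ I, (if i = j then 1 / π0 else 0) = 1 / π0 := by
        intro i hi
        rw [Finset.sum_ite_eq, if_pos hi]
      rw [sum_congr rfl e, sum_const, nsmul_eq_mul, ← hm]
      ring
    have h3 : ∑ i ∈ I, ∑ j ∈ I, (if (i, j) ∈ Dep then R - 1 else 0) ≤ Dep.card * (R - 1) := by
      rw [← Finset.sum_product', ← Finset.sum_filter, sum_const, nsmul_eq_mul]
      refine mul_le_mul_of_nonneg_right ?_ (by linarith)
      have : ((I ×ˢ I).filter fun x => (x.1, x.2) ∈ Dep).card ≤ Dep.card :=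
        card_le_card fun x hx => (mem_filter.1 hx).2
      exact_mod_cast this
    rw [h2, ← hm]
    nlinarith
  have hZm : Measurable Z := by
    rw [hZ]
    exact Finset.measurable_sum _ fun i hi => (measurable_const.indicator (hE i hi)).const_mul _
  have hbad : MeasurableSet {ω | ∀ i ∈ I, ω ∉ E i} := by
    have e : {ω | ∀ i ∈ I, ω ∉ E i} = ⋂ i ∈ I, (E i)ᶜ := by
      ext ω
      simp
    rw [e]
    exact Finset.measurableSet_biInter I fun i hi => (hE i hi).compl
  have hintZ : Integrable Z μ := by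
    rw [hZ]
    exact integrable_finsetSum _ hint1
  have hintZ2 : Integrable (fun ω => Z ω ^ 2) μ := by
    rw [hZ2']
    exact integrable_finsetSum _ fun i hi => integrable_finsetSum _ (hint2 i hi)
  have hvar : ∫ ω, (Z ω - m) ^ 2 ∂μ = (∫ ω, Z ω ^ 2 ∂μ) - m ^ 2 := by
    have e : (fun ω => (Z ω - m) ^ 2) = fun ω => Z ω ^ 2 - 2 * m * Z ω + m ^ 2 := by
      funext ω
      ring
    have i1 : Integrable (fun ω => 2 * m * Z ω) μ := hintZ.const_mul _
    have i2 : Integrable (fun ω => Z ω ^ 2 - 2 * m * Z ω) μ := hintZ2.sub i1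
    have s1 : ∫ ω, (Z ω ^ 2 - 2 * m * Z ω + m ^ 2) ∂μ =
        (∫ ω, (Z ω ^ 2 - 2 * m * Z ω) ∂μ) + ∫ _, m ^ 2 ∂μ := integral_add i2 (integrable_const _)
    have s2 : ∫ ω, (Z ω ^ 2 - 2 * m * Z ω) ∂μ = (∫ ω, Z ω ^ 2 ∂μ) - ∫ ω, 2 * m * Z ω ∂μ :=
      integral_sub hintZ2 i1
    have s3 : ∫ ω, 2 * m * Z ω ∂μ = 2 * m * m := by rw [integral_const_mul, hEZ]
    have s4 : ∫ _, m ^ 2 ∂μ = m ^ 2 := by simp
    rw [e, s1, s2, s3, s4]
    ring
  have hintd : Integrable (fun ω => (Z ω - m) ^ 2) μ := by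
    have e : (fun ω => (Z ω - m) ^ 2) = fun ω => Z ω ^ 2 - 2 * m * Z ω + m ^ 2 := by
      funext ω
      ring
    rw [e]
    exact (hintZ2.sub (hintZ.const_mul _)).add (integrable_const _)
  have hlow : m ^ 2 * μ.real {ω | ∀ i ∈ I, ω ∉ E i} ≤ ∫ ω, (Z ω - m) ^ 2 ∂μ := by
    have e : m ^ 2 * μ.real {ω | ∀ i ∈ I, ω ∉ E i} =
        ∫ ω, ({ω | ∀ i ∈ I, ω ∉ E i} : Set Ω).indicator (fun _ => m ^ 2) ω ∂μ := by
      rw [integral_indicator_const _ hbad, smul_eq_mul, mul_comm]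
    rw [e]
    refine integral_mono ((integrable_const _).indicator hbad) hintd fun ω => ?_
    by_cases hω : ω ∈ {ω | ∀ i ∈ I, ω ∉ E i}
    · rw [Set.indicator_of_mem hω]
      have hz : Z ω = 0 := by
        rw [hZ]
        refine sum_eq_zero fun i hi => ?_
        rw [Set.indicator_of_notMem (hω i hi), mul_zero]
      simp only [hz]
      exact le_of_eq (by ring)
    · rw [Set.indicator_of_notMem hω]
      exact sq_nonneg _
  have hfin : m ^ 2 * μ.real {ω | ∀ i ∈ I, ω ∉ E i} ≤ m / π0 + Dep.card * (R - 1) := by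
    rw [hvar, hEZ2] at hlow
    linarith
  rw [← hm]
  have h7 : 1 / (m * π0) + Dep.card / m ^ 2 * (R - 1) = (m / π0 + Dep.card * (R - 1)) / m ^ 2 := by
    field_simp
  rw [h7, le_div_iff₀ (by positivity), mul_comm]
  exact hfin

end Pool.Agent.Q65.ML
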